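import Pool.Agent.RBO.Final

/-!
# Circle-invariant contact forms: two or infinitely many Reeb orbits

Let `S = {h = 0}` be a closed connected surface in `ℝ³` (a compact connected level set of a `C²`
function `h`, regular: every closed connected oriented surface is of this form), and let `lam` be a
`C²` contact form on `S × ℝ/ℤ` invariant under the rotations of the circle factor, given as the
restriction of a 1-form on `ℝ³ × ℝ` invariant under the translations of the last coordinate. No
torsion condition and no nondegeneracy condition is imposed. Then `lam` has exactly two or infinitely
many simple closed Reeb orbits, and infinitely many if `S` has positive genus.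
-/

set_option autoImplicit false

namespace Pool.Agent.Results.MP_053c13_gt.CircleInvariant

open Pool.Agent.RBO.St

theorem result (h : R3 → ℝ) (hS : IsSurface h) (lam : OneForm) (hinv : IsInvariantForm lam)
    (hcontact : IsContactForm h lam) :
    -- the number of simple Reeb orbits is two or infinite
    ({O | IsClosedOrbit h lam O}.encard = 2 ∨ {O | IsClosedOrbit h lam O}.Infinite) ∧
    -- it is infinite if `S` has positive genus
    (PositiveGenus h → {O | IsClosedOrbit h lam O}.Infinite) :=
  Pool.Agent.RBO.final_main h hS lam hinv hcontact

end Pool.Agent.Results.MP_053c13_gt.CircleInvariant
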