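import Pool.Agent.CIR.Fin

/-!
# Contact forms with a circle symmetry: two or infinitely many Reeb orbits

Let `Y` be a closed connected 3-manifold, embedded in `ℝ^m`, and let `ℝ/ℤ` act on `Y`, nontrivially (the action is the
restriction of a linear isometric action on `ℝ^m`). Let `lam` be an invariant smooth 1-form on `ℝ^m` whose restriction
to `Y` is a contact form. Then `lam` has exactly two or infinitely many simple closed Reeb orbits. If it has
exactly two then the Reeb flow is quasi-periodic: for some `T > 0` and some irrational `b` its time-`T` map is the rotation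
`g b` of the circle action.
-/

set_option autoImplicit false

namespace Pool.Agent.Results.MP_053c13_gt.CircleSymmetry

open Pool.Agent.CIR

theorem result {m : ℕ} (Y : Set (EE m)) (hY : IsClosedThreeManifold Y) (lam : OneForm m)
    (hcontact : IsContactForm Y lam) (g : ℝ → EE m →ₗᵢ[ℝ] EE m) (haction : IsCircleAction Y g)
    (hinv : IsInvariantForm g lam) :
    -- infinitely many simple Reeb orbits
    {O | IsClosedOrbit Y lam O}.Infinite ∨
    -- or exactly two, and then the Reeb flow is quasi-periodic
    ({O | IsClosedOrbit Y lam O}.encard = 2 ∧ ∃ T b : ℝ, 0 < T ∧ Irrational b ∧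
      ∀ γ, IsReebTrajectory Y lam γ → ∀ t, γ (t + T) = g b (γ t)) :=
  fin ⟨hY, haction, hcontact, hinv⟩

end Pool.Agent.Results.MP_053c13_gt.CircleSymmetry
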